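import Mathlib

namespace Pool.Agent.Results.MP_8e46bf_ag.Counter

open Polynomial

/-- leading terms of a positive combination of squares -/
lemma lead {ι : Type*} (s : Finset ι) (c : ι → ℝ) (hc : ∀ k ∈ s, 0 < c k) (a : ι → ℕ)
    (u : ι → ℝ → ℝ) (hu : ∀ k ∈ s, Continuous (u k)) (h0 : ∀ k ∈ s, u k 0 ≠ 0) (m : ℕ)
    (R : ℝ → ℝ) (hR : Continuous R)
    (h : ∀ e : ℝ, e ≠ 0 → ∑ k ∈ s, c k * (e ^ a k * u k e) ^ 2 = e ^ (2 * m) * R e) :
    (∀ k ∈ s, m ≤ a k) ∧ ∑ k ∈ s, (if a k = m then c k * u k 0 ^ 2 else 0) = R 0 := by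
  have h1 : ∀ k ∈ s, m ≤ a k := by
    intro k hk
    by_contra hlt
    push Not at hlt
    obtain ⟨b, hb⟩ : ∃ b, m = a k + (b + 1) := ⟨m - a k - 1, by omega⟩
    have hcl : IsClosed {e : ℝ | c k * u k e ^ 2 ≤ e ^ (2 * (b + 1)) * R e} :=
      isClosed_le (by have := hu k hk; fun_prop) (by fun_prop)
    have hsub : ({0}ᶜ : Set ℝ) ⊆ {e : ℝ | c k * u k e ^ 2 ≤ e ^ (2 * (b + 1)) * R e} := by
      intro e he
      have he0 : e ≠ 0 := he
      have h2 : c k * (e ^ a k * u k e) ^ 2 ≤ e ^ (2 * m) * R e := by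
        rw [← h e he0]
        exact Finset.single_le_sum (f := fun k => c k * (e ^ a k * u k e) ^ 2)
          (fun j hj => mul_nonneg (hc j hj).le (sq_nonneg _)) hk
      have hp : 0 < (e ^ a k) ^ 2 := by positivity
      have h3 : (e ^ a k) ^ 2 * (c k * u k e ^ 2) ≤ (e ^ a k) ^ 2 * (e ^ (2 * (b + 1)) * R e) := by
        calc _ = c k * (e ^ a k * u k e) ^ 2 := by ring
          _ ≤ _ := h2
          _ = _ := by rw [hb]; ring
      exact le_of_mul_le_mul_left h3 hp
    have h4 : (0 : ℝ) ∈ {e : ℝ | c k * u k e ^ 2 ≤ e ^ (2 * (b + 1)) * R e} :=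
      closure_minimal hsub hcl ((dense_compl_singleton (0 : ℝ)) 0)
    have h5 : c k * u k 0 ^ 2 ≤ 0 := by simpa using h4
    have h6 : 0 < c k * u k 0 ^ 2 := mul_pos (hc k hk) (by have := h0 k hk; positivity)
    linarith
  refine ⟨h1, ?_⟩
  have hcont : Continuous (fun e : ℝ => ∑ k ∈ s, c k * (e ^ (a k - m) * u k e) ^ 2) :=
    continuous_finsetSum _ (fun k hk => by have := hu k hk; fun_prop)
  have heq := Continuous.ext_on (dense_compl_singleton (0 : ℝ)) hcont hR (by
    intro e he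
    have he0 : e ≠ 0 := he
    have hp : e ^ (2 * m) ≠ 0 := pow_ne_zero _ he0
    apply mul_left_cancel₀ hp
    rw [← h e he0, Finset.mul_sum]
    refine Finset.sum_congr rfl (fun k hk => ?_)
    obtain ⟨b, hb⟩ := Nat.exists_eq_add_of_le (h1 k hk)
    rw [hb, Nat.add_sub_cancel_left]; ring)
  rw [← congrFun heq 0]
  refine Finset.sum_congr rfl (fun k hk => ?_)
  split_ifs with hm
  · simp [hm]
  · have : a k - m ≠ 0 := by have := h1 k hk; omega
    simp [this]

lemma disc_lin (f : ℝ[X]) (r : ℝ) (hf : 0 < f.natDegree) :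
    ((X - C r) * f).discr = f.eval r ^ 2 * f.discr := by
  have hf0 : f ≠ 0 := by rintro rfl; simp at hf
  have hn : ((X - C r) * f).natDegree = 1 + f.natDegree := by
    rw [natDegree_mul (X_sub_C_ne_zero r) hf0, natDegree_X_sub_C]
  have hl : ((X - C r) * f).leadingCoeff = f.leadingCoeff := by
    rw [leadingCoeff_mul, leadingCoeff_X_sub_C, one_mul]
  have h1 := resultant_deriv (f := (X - C r) * f) (by rw [← natDegree_pos_iff_degree_pos]; omega)
  have h2 := resultant_deriv (f := f) (by rw [← natDegree_pos_iff_degree_pos]; omega)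
  have hd : ((X - C r) * f).derivative = (X - C r) * f.derivative + f * 1 := by
    simp [derivative_mul]; ring
  have hdn : f.derivative.natDegree = f.natDegree - 1 := natDegree_derivative f
  have hle : ((X - C r) * f).derivative.natDegree ≤ f.natDegree := by
    have := natDegree_derivative_le ((X - C r) * f); omega
  have h3 := resultant_mul_left (X - C r) f ((X - C r) * f).derivative f.natDegree hle
  rw [natDegree_X_sub_C, resultant_X_sub_C_left _ _ _ hle] at h3
  have h4 : resultant f ((X - C r) * f).derivative f.natDegree f.natDegree =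
      (-1) ^ f.natDegree * f.eval r * resultant f f.derivative f.natDegree (f.natDegree - 1) := by
    rw [hd, resultant_add_mul_right _ _ _ _ _ (by simp) le_rfl]
    have h5 := resultant_mul_right f (X - C r) f.derivative f.natDegree le_rfl
    rw [natDegree_X_sub_C, resultant_X_sub_C_right _ _ _ le_rfl, hdn,
      show 1 + (f.natDegree - 1) = f.natDegree by omega] at h5
    exact h5
  have h6 : ((X - C r) * f).derivative.eval r = f.eval r := by rw [hd]; simp
  rw [hn, hl, show 1 + f.natDegree - 1 = f.natDegree by omega, h3, h4, h2, h6,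
    show (1 + f.natDegree) * f.natDegree / 2 = f.natDegree * (f.natDegree - 1) / 2 + f.natDegree by
      have := Nat.triangle_succ f.natDegree
      rw [Nat.add_sub_cancel] at this
      rw [add_comm 1, this], pow_add] at h1
  have hne : ((-1 : ℝ) ^ (f.natDegree * (f.natDegree - 1) / 2) * (-1) ^ f.natDegree *
      f.leadingCoeff) ≠ 0 := by
    have := leadingCoeff_ne_zero.mpr hf0
    positivity
  apply mul_left_cancel₀ hne
  rw [← h1]; ring

lemma deriv_facts {A : Type*} [CommRing A] [IsDomain A] [CharZero A] (z : Fin 7 → A) :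
    (derivative (∏ l, (X - C (z l)))).natDegree = 6 ∧
      (derivative (∏ l, (X - C (z l)))).leadingCoeff = 7 := by
  have hm : (∏ l, (X - C (z l))).Monic := monic_prod_of_monic _ _ (fun l _ => monic_X_sub_C _)
  have hn : (∏ l, (X - C (z l))).natDegree = 7 := by
    rw [natDegree_prod_of_monic _ _ (fun l _ => monic_X_sub_C _)]; simp
  have h1 : (derivative (∏ l, (X - C (z l)))).natDegree = 6 := by
    rw [natDegree_derivative, hn]
  refine ⟨h1, ?_⟩
  rw [leadingCoeff, h1, coeff_derivative]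
  have : (∏ l, (X - C (z l))).coeff (6 + 1) = 1 := by
    have := hm.coeff_natDegree
    rwa [hn] at this
  rw [this]; norm_num

lemma disc_map (z : Fin 7 → ℝ) :
    MvPolynomial.eval z (derivative (∏ l : Fin 7,
      (X - C (MvPolynomial.X l : MvPolynomial (Fin 7) ℝ)))).discr =
      (derivative (∏ l, (X - C (z l)))).discr := by
  obtain ⟨a1, a2⟩ := deriv_facts (fun l : Fin 7 => (MvPolynomial.X l : MvPolynomial (Fin 7) ℝ))
  obtain ⟨b1, b2⟩ := deriv_facts z
  generalize hg : derivative (∏ l : Fin 7,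
      (X - C (MvPolynomial.X l : MvPolynomial (Fin 7) ℝ))) = g at a1 a2
  have hmap : g.map (MvPolynomial.eval z) = derivative (∏ l, (X - C (z l))) := by
    rw [← hg, ← derivative_map, Polynomial.map_prod]; simp
  generalize derivative (∏ l, (X - C (z l))) = g' at b1 b2 hmap
  have h1 := resultant_deriv (f := g) (by rw [← natDegree_pos_iff_degree_pos]; omega)
  have h2 := resultant_deriv (f := g') (by rw [← natDegree_pos_iff_degree_pos]; omega)
  rw [a1, a2] at h1
  rw [b1, b2, ← hmap, derivative_map, resultant_map_map, h1, hmap] at h2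
  simp only [map_mul, map_pow, map_neg, map_one, map_ofNat] at h2
  norm_num at h2
  exact h2

/-- the configuration `(0, 0, 1, 1, 1 + e, 1 + e, v)` -/
def val (e v : ℝ) : Fin 4 → ℝ := ![0, 1, 1 + e, v]

def cl : Fin 7 → Fin 4 := ![0, 0, 1, 1, 2, 2, 3]

noncomputable def cub (u v : ℝ) : ℝ[X] :=
  C 7 * X ^ 3 + C (-(5 + 5 * u + 6 * v)) * X ^ 2 + C (3 * u + 4 * v + 4 * u * v) * X
    + C (-(2 * u * v))

def dc (u v : ℝ) : ℝ :=
  (5 + 5 * u + 6 * v) ^ 2 * (3 * u + 4 * v + 4 * u * v) ^ 2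
    - 4 * 7 * (3 * u + 4 * v + 4 * u * v) ^ 3
    - 4 * (5 + 5 * u + 6 * v) ^ 3 * (2 * u * v) - 27 * 7 ^ 2 * (2 * u * v) ^ 2
    + 18 * 7 * (5 + 5 * u + 6 * v) * (3 * u + 4 * v + 4 * u * v) * (2 * u * v)

lemma cub_deg (u v : ℝ) : (cub u v).degree = 3 := degree_cubic (by norm_num)

lemma cub_disc (u v : ℝ) : (cub u v).discr = dc u v := by
  rw [discr_of_degree_eq_three (cub_deg u v)]
  have c3 : (cub u v).coeff 3 = 7 := by
    simp only [cub, coeff_add, coeff_C_mul, coeff_X_pow, coeff_X, coeff_C]; norm_num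
  have c2 : (cub u v).coeff 2 = -(5 + 5 * u + 6 * v) := by
    simp only [cub, coeff_add, coeff_C_mul, coeff_X_pow, coeff_X, coeff_C]; norm_num
  have c1 : (cub u v).coeff 1 = 3 * u + 4 * v + 4 * u * v := by
    simp only [cub, coeff_add, coeff_C_mul, coeff_X_pow, coeff_X, coeff_C]; norm_num
  have c0 : (cub u v).coeff 0 = -(2 * u * v) := by
    simp only [cub, coeff_add, coeff_C_mul, coeff_X_pow, coeff_X, coeff_C]; norm_num
  rw [c3, c2, c1, c0, dc]; ring

lemma disc_val (e v : ℝ) : (derivative (∏ l, (X - C (val e v (cl l))))).discr =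
    e ^ (2 * 3) * (64 * (1 + e) ^ 6 * v ^ 2 * (1 - v) ^ 2 * (1 + e - v) ^ 2 * dc (1 + e) v) := by
  have h : derivative (∏ l, (X - C (val e v (cl l)))) =
      (X - C 0) * ((X - C 1) * ((X - C (1 + e)) * cub (1 + e) v)) := by
    simp only [Fin.prod_univ_seven, derivative_mul, derivative_sub, derivative_X, derivative_C]
    simp [val, cl, cub, map_ofNat]
    ring
  have n3 : (cub (1 + e) v).natDegree = 3 := natDegree_eq_of_degree_eq_some (cub_deg _ _)
  have z3 : cub (1 + e) v ≠ 0 := by intro h0; rw [h0] at n3; simp at n3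
  have n4 : ((X - C (1 + e)) * cub (1 + e) v).natDegree = 4 := by
    rw [natDegree_mul (X_sub_C_ne_zero _) z3, natDegree_X_sub_C, n3]
  have z4 : ((X - C (1 + e)) * cub (1 + e) v) ≠ 0 := mul_ne_zero (X_sub_C_ne_zero _) z3
  have n5 : ((X - C 1) * ((X - C (1 + e)) * cub (1 + e) v)).natDegree = 5 := by
    rw [natDegree_mul (X_sub_C_ne_zero _) z4, natDegree_X_sub_C, n4]
  rw [h, disc_lin _ _ (by omega), disc_lin _ _ (by omega), disc_lin _ _ (by omega), cub_disc]
  simp only [cub, eval_mul, eval_sub, eval_add, eval_X, eval_C, eval_pow]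
  ring

def Good (f : ℝ → ℝ → ℝ) : Prop :=
  (∀ e v, f e v = 0) ∨ ∃ (a α β : ℕ) (U : ℝ → ℝ → ℝ), (∀ v, Continuous (U v)) ∧
    (∀ e v, f e v = e ^ a * U v e) ∧ ∀ v, U v 0 ^ 2 = (v ^ α * (v - 1) ^ β) ^ 2

lemma good_mul {f g : ℝ → ℝ → ℝ} (hf : Good f) (hg : Good g) :
    Good (fun e v => f e v * g e v) := by
  rcases hf with hf | ⟨a, α, β, U, h1, h2, h3⟩
  · left; intro e v; simp [hf]
  rcases hg with hg | ⟨a', α', β', U', h1', h2', h3'⟩
  · left; intro e v; simp [hg]
  right
  refine ⟨a + a', α + α', β + β', fun v e => U v e * U' v e, fun v => (h1 v).mul (h1' v),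
    fun e v => by simp only [h2, h2']; ring, fun v => ?_⟩
  show (U v 0 * U' v 0) ^ 2 = _
  rw [mul_pow, h3, h3']; ring

lemma good_neg {f : ℝ → ℝ → ℝ} (hf : Good f) : Good (fun e v => - f e v) := by
  rcases hf with hf | ⟨a, α, β, U, h1, h2, h3⟩
  · left; intro e v; simp [hf]
  right
  exact ⟨a, α, β, fun v e => - U v e, fun v => (h1 v).neg, fun e v => by simp [h2],
    fun v => by simp [h3]⟩

lemma good_diff (p q : Fin 4) : Good (fun e v => val e v p - val e v q) := by
  wlog h : q ≤ p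
  · have := good_neg (this q p (le_of_not_ge h))
    simpa using this
  have mk : ∀ (a α β : ℕ) (U : ℝ → ℝ → ℝ) (f : ℝ → ℝ → ℝ), (∀ v, Continuous (U v)) →
      (∀ e v, f e v = e ^ a * U v e) → (∀ v, U v 0 ^ 2 = (v ^ α * (v - 1) ^ β) ^ 2) → Good f :=
    fun a α β U f h1 h2 h3 => Or.inr ⟨a, α, β, U, h1, h2, h3⟩
  fin_cases p <;> fin_cases q <;> simp at h
  all_goals first
    | (left; intro e v; simp; done)
    | (refine mk 0 0 0 (fun _ _ => 1) _ (fun _ => ?_) ?_ ?_
       · fun_prop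
       · simp [val]; done
       · simp)
    | (refine mk 0 0 0 (fun _ e => 1 + e) _ (fun _ => ?_) ?_ ?_
       · fun_prop
       · simp [val]; done
       · simp)
    | (refine mk 1 0 0 (fun _ _ => 1) _ (fun _ => ?_) ?_ ?_
       · fun_prop
       · simp [val]; done
       · simp)
    | (refine mk 0 1 0 (fun v _ => v) _ (fun _ => ?_) ?_ ?_
       · fun_prop
       · simp [val]; done
       · simp)
    | (refine mk 0 0 1 (fun v _ => v - 1) _ (fun _ => ?_) ?_ ?_
       · fun_prop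
       · simp [val]; done
       · simp)
    | (refine mk 0 0 1 (fun v e => v - (1 + e)) _ (fun _ => ?_) ?_ ?_
       · fun_prop
       · simp [val]; done
       · simp)

lemma good_prod {τ : Type*} (s : Finset τ) (p q : τ → Fin 4) :
    Good (fun e v => ∏ t ∈ s, (val e v (p t) - val e v (q t))) := by
  classical
  induction s using Finset.induction_on with
  | empty =>
    exact Or.inr ⟨0, 0, 0, fun _ _ => 1, fun _ => by fun_prop, by simp, by simp⟩
  | insert t s ht ih =>
    simp only [Finset.prod_insert ht]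
    exact good_mul (good_diff _ _) ih

lemma final {ι : Type*} (s : Finset ι) (c : ι → ℝ) (hc : ∀ k ∈ s, 0 < c k) (α β : ι → ℕ)
    (h : ∀ v : ℝ, ∑ k ∈ s, c k * (v ^ α k * (v - 1) ^ β k) ^ 2 =
      1024 * v ^ 2 * (1 - v) ^ 6 * (36 * v ^ 2 - 20 * v + 9)) : False := by
  obtain ⟨a1, a2⟩ := lead s c hc α (fun k e => (e - 1) ^ β k) (fun k _ => by fun_prop)
    (fun k _ => by simp) 1 (fun v => 1024 * (1 - v) ^ 6 * (36 * v ^ 2 - 20 * v + 9))
    (by fun_prop) (fun e _ => by rw [h e]; ring)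
  obtain ⟨b1, b2⟩ := lead s c hc β (fun k e => (1 + e) ^ α k) (fun k _ => by fun_prop)
    (fun k _ => by simp) 3
    (fun e => 1024 * (1 + e) ^ 2 * (36 * (1 + e) ^ 2 - 20 * (1 + e) + 9))
    (by fun_prop) (fun e _ => by
      have := h (1 + e)
      rw [add_sub_cancel_left] at this
      rw [show e ^ (2 * 3) * (1024 * (1 + e) ^ 2 * (36 * (1 + e) ^ 2 - 20 * (1 + e) + 9)) =
        1024 * (1 + e) ^ 2 * (1 - (1 + e)) ^ 6 * (36 * (1 + e) ^ 2 - 20 * (1 + e) + 9) by ring,
        ← this]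
      exact Finset.sum_congr rfl (fun k _ => by ring))
  obtain ⟨M, hM⟩ : ∃ M : ℕ, ∀ k ∈ s, α k + β k ≤ M :=
    ⟨∑ k ∈ s, (α k + β k), fun k hk =>
      Finset.single_le_sum (f := fun k => α k + β k) (fun _ _ => Nat.zero_le _) hk⟩
  obtain ⟨-, c2⟩ := lead s c hc (fun k => M + 5 - (α k + β k)) (fun k e => (1 - e) ^ β k)
    (fun k _ => by fun_prop) (fun k _ => by simp) M
    (fun e => 1024 * (e - 1) ^ 6 * (36 - 20 * e + 9 * e ^ 2))
    (by fun_prop) (fun e he => by
      have h1 := h e⁻¹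
      have h2 : e ^ (2 * M) * (1024 * (e - 1) ^ 6 * (36 - 20 * e + 9 * e ^ 2)) =
          e ^ (2 * M) * e ^ 10 *
            (1024 * e⁻¹ ^ 2 * (1 - e⁻¹) ^ 6 * (36 * e⁻¹ ^ 2 - 20 * e⁻¹ + 9)) := by
        field_simp
      rw [h2, ← h1, Finset.mul_sum]
      refine Finset.sum_congr rfl (fun k hk => ?_)
      obtain ⟨b, hb⟩ := Nat.exists_eq_add_of_le (show α k + β k ≤ M + 5 by have := hM k hk; omega)
      have h3 : e ^ (2 * M) * e ^ 10 = (e ^ α k * e ^ β k * e ^ b) ^ 2 := by
        rw [← pow_add, ← pow_add, ← pow_add, ← pow_mul, ← hb]; congr 1; omega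
      have h4 : e ^ α k * e⁻¹ ^ α k = 1 := by rw [← mul_pow, mul_inv_cancel₀ he, one_pow]
      have h5 : e ^ β k * (e⁻¹ - 1) ^ β k = (1 - e) ^ β k := by
        rw [← mul_pow, mul_sub, mul_inv_cancel₀ he, mul_one]
      simp only [hb, Nat.add_sub_cancel_left]
      rw [h3, ← h5]
      calc _ = c k * (e ^ b * (e ^ α k * e⁻¹ ^ α k) * (e ^ β k * (e⁻¹ - 1) ^ β k)) ^ 2 := by
            rw [h4]; ring
        _ = _ := by ring)
  have hle : ∑ k ∈ s, (if M + 5 - (α k + β k) = M then c k * ((1 - 0) ^ β k) ^ 2 else 0) ≤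
      ∑ k ∈ s, ((if α k = 1 then c k * ((0 - 1) ^ β k) ^ 2 else 0) +
        (if β k = 3 then c k * ((1 + 0) ^ α k) ^ 2 else 0)) := by
    refine Finset.sum_le_sum (fun k hk => ?_)
    have e1 : (((0 : ℝ) - 1) ^ β k) ^ 2 = 1 := by rw [← pow_mul, mul_comm, pow_mul]; simp
    have := hc k hk
    have := a1 k hk
    have := b1 k hk
    have := hM k hk
    simp only [e1, sub_zero, add_zero, one_pow, mul_one]
    split_ifs <;> first | linarith | omega
  rw [Finset.sum_add_distrib, a2, b2, c2] at hle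
  norm_num at hle

theorem result : ¬ ∀ n : ℕ, 3 ≤ n → ∃ (N : ℕ) (r : Fin N → ℕ)
    (i j : (k : Fin N) → Fin (r k) → Fin n) (c : Fin N → ℝ),
    (∀ k t, i k t ≠ j k t) ∧ (∀ k, 0 < c k) ∧
    (derivative (∏ l : Fin n, (X - C (MvPolynomial.X l : MvPolynomial (Fin n) ℝ)))).discr =
      ∑ k, MvPolynomial.C (c k) *
        (∏ t, (MvPolynomial.X (i k t) - MvPolynomial.X (j k t))) ^ 2 := by
  classical
  intro H
  obtain ⟨N, r, i, j, c, -, hc, h⟩ := H 7 (by norm_num)
  have h1 : ∀ e v : ℝ, ∑ k, c k * (∏ t, (val e v (cl (i k t)) - val e v (cl (j k t)))) ^ 2 =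
      e ^ (2 * 3) *
        (64 * (1 + e) ^ 6 * v ^ 2 * (1 - v) ^ 2 * (1 + e - v) ^ 2 * dc (1 + e) v) := by
    intro e v
    rw [← disc_val, ← disc_map, h]
    simp
  have hg : ∀ k : Fin N, ∃ (z : Prop) (a α β : ℕ) (U : ℝ → ℝ → ℝ),
      (z → ∀ e v, ∏ t, (val e v (cl (i k t)) - val e v (cl (j k t))) = 0) ∧
      (¬ z → (∀ v, Continuous (U v)) ∧
      (∀ e v, ∏ t, (val e v (cl (i k t)) - val e v (cl (j k t))) = e ^ a * U v e) ∧
      ∀ v, U v 0 ^ 2 = (v ^ α * (v - 1) ^ β) ^ 2) := by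
    intro k
    rcases good_prod Finset.univ (fun t => cl (i k t)) (fun t => cl (j k t)) with
      h0 | ⟨a, α, β, U, h0⟩
    · exact ⟨True, 0, 0, 0, fun _ _ => 0, fun _ => h0, fun h => absurd trivial h⟩
    · exact ⟨False, a, α, β, U, fun h => h.elim, fun _ => h0⟩
  choose z a α β U hz hn using hg
  have h2 : ∀ v : ℝ, v ≠ 0 → v ≠ 1 →
      ∑ k ∈ (Finset.univ.filter (fun k => ¬ z k)).filter (fun k => a k = 3),
        c k * (v ^ α k * (v - 1) ^ β k) ^ 2 =
      1024 * v ^ 2 * (1 - v) ^ 6 * (36 * v ^ 2 - 20 * v + 9) := by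
    intro v hv0 hv1
    obtain ⟨-, h3⟩ := lead (Finset.univ.filter (fun k => ¬ z k)) c (fun k _ => hc k) a
      (fun k => U k v) (fun k hk => (hn k (by simpa using hk)).1 v)
      (fun k hk => by
        have h4 := (hn k (by simpa using hk)).2.2 v
        intro h5
        have h6 : v - 1 ≠ 0 := sub_ne_zero.mpr hv1
        rw [h5] at h4
        have : (v ^ α k * (v - 1) ^ β k) ^ 2 ≠ 0 := by positivity
        exact this (by rw [← h4]; simp)) 3
      (fun e => 64 * (1 + e) ^ 6 * v ^ 2 * (1 - v) ^ 2 * (1 + e - v) ^ 2 * dc (1 + e) v)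
      (by unfold dc; fun_prop) (fun e _ => by
        rw [← h1 e v, Finset.sum_filter]
        refine Finset.sum_congr rfl (fun k _ => ?_)
        split_ifs with hk
        · rw [hz k hk]; simp
        · rw [(hn k hk).2.1])
    rw [Finset.sum_filter]
    refine Eq.trans (Finset.sum_congr rfl (fun k hk => ?_)) (h3.trans ?_)
    · rw [(hn k (by simpa using hk)).2.2 v]
    · unfold dc; ring
  refine final ((Finset.univ.filter (fun k => ¬ z k)).filter (fun k => a k = 3)) c
    (fun k _ => hc k) α β (fun v => ?_)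
  have hd : Dense (({0, 1} : Set ℝ)ᶜ) := (Set.toFinite _).countable.dense_compl ℝ
  exact congrFun (Continuous.ext_on
    (f := fun v : ℝ => ∑ k ∈ (Finset.univ.filter (fun k => ¬ z k)).filter (fun k => a k = 3),
      c k * (v ^ α k * (v - 1) ^ β k) ^ 2)
    (g := fun v : ℝ => 1024 * v ^ 2 * (1 - v) ^ 6 * (36 * v ^ 2 - 20 * v + 9))
    hd (by fun_prop) (by fun_prop) (fun w hw => by
    simp only [Set.mem_compl_iff, Set.mem_insert_iff, Set.mem_singleton_iff, not_or] at hw
    exact h2 w hw.1 hw.2)) v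

end Pool.Agent.Results.MP_8e46bf_ag.Counter
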